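import Pool.Agent.Q265.DL.Dbl

/-!
# Packings by translates of a convex body and of its reflection: density at least `0.437`

Every convex body `K` in `ℝ³` has a packing by the sets `K + u` and `v - K + u`, `u` in a lattice,
of density at least `0.437`. Hence the minima of `δ_{L*}` and `δ_{T*}` over all convex bodies are at
least `0.437`.
-/

namespace Pool.Agent.Results.MP_3d065d_co.ReflectedCopiesLongPeriods

open Pool.Agent.TH219.DL

/-- **`m_{L*} ≥ 0.437` and `m_{T*} ≥ 0.437`.** For every convex body `K` in space the supremum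
`dLs K` of the densities of the packings by `K + u`, `v - K + u`, `u` in a lattice, and the supremum
`dTs K` over all packings by translates of `K` and of `-K` are at least `0.437`. -/
theorem result :
    (∀ K : Set (Fin 3 → ℝ), Body K →
      ENNReal.ofReal 0.437 ≤ dLs K ∧ ENNReal.ofReal 0.437 ≤ dTs K) ∧
    ENNReal.ofReal 0.437 ≤ mn dLs ∧ ENNReal.ofReal 0.437 ≤ mn dTs := by
  have h : ∀ K : Set (Fin 3 → ℝ), Body K →
      ENNReal.ofReal 0.437 ≤ dLs K ∧ ENNReal.ofReal 0.437 ≤ dTs K := fun K hK =>
    ⟨Pool.Agent.Q265.DL.dLs_low hK, (Pool.Agent.Q265.DL.dLs_low hK).trans (dLs_le_dTs K)⟩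
  exact ⟨h, le_iInf₂ fun K hK => (h K hK).1, le_iInf₂ fun K hK => (h K hK).2⟩

end Pool.Agent.Results.MP_3d065d_co.ReflectedCopiesLongPeriods
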