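import Pool.Agent.Q116.LP.Top

/-!
# Every convex body in space has a lattice packing of density at least `√5 / 9 > 0.2484`

`Body K`: `K` is a convex body in `ℝ³` (compact, convex, with interior points). `dL K`, `dT K` are the
suprema of the densities of the lattice packings and of the packings by translates of `K`, and `mn`
is the minimum (infimum) over all convex bodies, see `Pool.Agent.TH219.DL.Defs`.

Proof: after a linear change of coordinates the least ellipsoid containing `K - K` is the unit ball.
One of its contact points `e` has weight at least `1/2` in John's decomposition. Let `S` be the
shadow of `K` along `e`. The quadratic form of the least ellipse containing `S - S` has trace at most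
`5/2`, hence determinant at most `25/16`, and two of the contact points of this ellipse enclose an
angle between 60 and 120 degrees; so `S` contains two chords which span a parallelogram of area at
least `2 √3 / 5`, and `S` has area at least `√3 / 5`. The translates of `K` are arranged in columns along `e` over a lattice of Fáry for `S`, of
determinant `D` at most `3/2` of the area of `S`, and the next layer is shifted horizontally to the
deepest hole of the planar lattice, which is at distance at least `√(2 D / (3 √3))` from all its
points, so that the layers are at distance `√(1 - 2 D / (3 √3))` instead of `1`.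
-/

namespace Pool.Agent.Results.MP_3d065d_co.SqrtFiveNinths

open Pool.Agent.TH219.DL

/-- Every convex body in space has lattice packing density at least `√5 / 9`; so the minima of the
lattice packing density and of the translative packing density are at least `0.2484`. -/
theorem result :
    (∀ K : Set (Fin 3 → ℝ), Body K → ENNReal.ofReal (√5 / 9) ≤ dL K) ∧
      ENNReal.ofReal 0.2484 ≤ mn dL ∧ ENNReal.ofReal 0.2484 ≤ mn dT := by
  have h0 : (0.2484 : ℝ) ≤ √5 / 9 := by
    have h1 : (0.2484 * 9 : ℝ) ≤ √5 := Real.le_sqrt_of_sq_le (by norm_num)
    linarith
  have h1 : ∀ K : Set (Fin 3 → ℝ), Body K → ENNReal.ofReal 0.2484 ≤ dL K := fun K hK =>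
    (ENNReal.ofReal_le_ofReal h0).trans (Q116.LP.low hK)
  exact ⟨fun K hK => Q116.LP.low hK, le_iInf₂ fun K hK => h1 K hK,
    le_iInf₂ fun K hK => (h1 K hK).trans (dL_le_dT K)⟩

end Pool.Agent.Results.MP_3d065d_co.SqrtFiveNinths
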